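import Mathlib
import Pool.Agent.H33.GG.M7

/-! # A component of the Hilbert scheme of space curves that is not fixed by Galois

Definitions used in the statement: `Pool/Agent/H33/GG/Def.lean` (forms, Hilbert function, `HilbPt` with its
Zariski topology, ideals of lines and double lines), `Pool/Agent/H33/GG/Crv.lean` (the explicit curve), and
`galAct` (the action of automorphisms of the field on `HilbPt`) in `Pool/Agent/H33/GG/Act.lean`. -/

namespace Pool.Agent.Results.MP_cbec7f_ag.MovedComponent

open Pool.H33.G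

/-- Degree `29`, arithmetic genus `-1483`.  Every irreducible component through the point of the
explicit curve `curve ω` is moved by every automorphism that moves the cube root of unity `ω`. -/
theorem result : ∃ ω : AlgebraicClosure ℚ, ω ^ 2 + ω + 1 = 0 ∧ ∃ r₀ : ℕ, ∀ r ≥ r₀,
    ∃ w : HilbPt (AlgebraicClosure ℚ) 29 (-1483) r, w.1 = part (curve ω).ideal r ∧
      (∃ H ∈ irreducibleComponents (HilbPt (AlgebraicClosure ℚ) 29 (-1483) r), w ∈ H) ∧
      (∃ σ : AlgebraicClosure ℚ ≃ₐ[ℚ] AlgebraicClosure ℚ, σ ω ≠ ω) ∧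
      ∀ H ∈ irreducibleComponents (HilbPt (AlgebraicClosure ℚ) 29 (-1483) r), w ∈ H →
        ∀ σ : AlgebraicClosure ℚ ≃ₐ[ℚ] AlgebraicClosure ℚ, σ ω ≠ ω →
          galAct σ.toRingEquiv '' H ∈
            irreducibleComponents (HilbPt (AlgebraicClosure ℚ) 29 (-1483) r) ∧
          galAct σ.toRingEquiv '' H ≠ H :=
  final

end Pool.Agent.Results.MP_cbec7f_ag.MovedComponent
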